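import Mathlib

set_option autoImplicit false

/-!
Overconvergence lemma and smoothness up to the boundary of lacunary series of powers of linear
forms on the ball.
-/

open Metric Set Filter Topology

namespace Pool.Agent.Y260

/-- A two constants type estimate: if `T` is bounded by `A` on a disc of radius `R` and by `ε` on
the concentric disc of radius `R/8`, then on the disc of radius `R/4` it is small. -/
theorem two_const {T : ℂ → ℂ} {c : ℂ} {R A ε : ℝ} (hR : 0 < R)
    (hT : DifferentiableOn ℂ T (ball c R)) (hA : ∀ z ∈ ball c R, ‖T z‖ ≤ A)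
    (hε : ∀ z ∈ ball c (R / 8), ‖T z‖ ≤ ε) (J : ℕ) {w : ℂ} (hw : ‖w - c‖ ≤ R / 4) :
    ‖T w‖ ≤ ε * 4 ^ J + 2 * A * (1 / 2) ^ J := by
  have hA0 : 0 ≤ A := (norm_nonneg _).trans (hA c (mem_ball_self hR))
  have hε0 : 0 ≤ ε := (norm_nonneg _).trans (hε c (mem_ball_self (by positivity)))
  have hwb : w ∈ ball c R := by
    rw [mem_ball, dist_eq_norm]; linarith
  have hsum := Complex.hasSum_taylorSeries_on_ball hT hwb
  set t : ℕ → ℂ := fun n => ((n.factorial : ℂ))⁻¹ • (w - c) ^ n • iteratedDeriv n T c with ht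
  have b1 : ∀ n, ‖iteratedDeriv n T c‖ ≤ n.factorial * A / (R / 2) ^ n := by
    intro n
    apply Complex.norm_iteratedDeriv_le_of_forall_mem_sphere_norm_le n (by positivity)
    · apply DifferentiableOn.diffContOnCl
      apply hT.mono
      rw [closure_ball _ (by positivity)]
      exact closedBall_subset_ball (by linarith)
    · intro z hz
      apply hA
      rw [mem_sphere] at hz
      rw [mem_ball, hz]; linarith
  have b2 : ∀ n, ‖iteratedDeriv n T c‖ ≤ n.factorial * ε / (R / 16) ^ n := by
    intro n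
    apply Complex.norm_iteratedDeriv_le_of_forall_mem_sphere_norm_le n (by positivity)
    · apply DifferentiableOn.diffContOnCl
      apply hT.mono
      rw [closure_ball _ (by positivity)]
      exact closedBall_subset_ball (by linarith)
    · intro z hz
      apply hε
      rw [mem_sphere] at hz
      rw [mem_ball, hz]; linarith
  have hfac : ∀ n : ℕ, (0 : ℝ) < n.factorial := fun n => by exact_mod_cast n.factorial_pos
  have hnt : ∀ n, ‖t n‖ = (n.factorial : ℝ)⁻¹ * (‖w - c‖ ^ n * ‖iteratedDeriv n T c‖) := by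
    intro n
    simp only [ht, norm_smul, norm_inv, norm_pow, Complex.norm_natCast]
  have c1 : ∀ n, ‖t n‖ ≤ A * (1 / 2) ^ n := by
    intro n
    rw [hnt]
    calc (n.factorial : ℝ)⁻¹ * (‖w - c‖ ^ n * ‖iteratedDeriv n T c‖)
        ≤ (n.factorial : ℝ)⁻¹ * ((R / 4) ^ n * (n.factorial * A / (R / 2) ^ n)) := by
          gcongr
          exact b1 n
      _ = A * (1 / 2) ^ n := by
          have := (hfac n).ne'
          have e1 : (R / 4) ^ n = (R / 2) ^ n * (1 / 2) ^ n := by
            rw [← mul_pow]; congr 1; ring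
          rw [e1]
          have : (R / 2) ^ n ≠ 0 := by positivity
          field_simp
  have c2 : ∀ n, ‖t n‖ ≤ ε * 4 ^ n := by
    intro n
    rw [hnt]
    calc (n.factorial : ℝ)⁻¹ * (‖w - c‖ ^ n * ‖iteratedDeriv n T c‖)
        ≤ (n.factorial : ℝ)⁻¹ * ((R / 4) ^ n * (n.factorial * ε / (R / 16) ^ n)) := by
          gcongr
          exact b2 n
      _ = ε * 4 ^ n := by
          have := (hfac n).ne'
          have e1 : (R / 4) ^ n = (R / 16) ^ n * 4 ^ n := by
            rw [← mul_pow]; congr 1; ring
          rw [e1]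
          have : (R / 16) ^ n ≠ 0 := by positivity
          field_simp
  have hgeo : Summable fun n : ℕ => A * (1 / 2 : ℝ) ^ n :=
    (summable_geometric_of_lt_one (by norm_num) (by norm_num)).mul_left A
  have hst : Summable fun n => ‖t n‖ := Summable.of_nonneg_of_le (fun _ => norm_nonneg _) c1 hgeo
  rw [← hsum.tsum_eq]
  refine (norm_tsum_le_tsum_norm hst).trans ?_
  rw [← hst.sum_add_tsum_nat_add J]
  have d1 : ∑ n ∈ Finset.range J, ‖t n‖ ≤ ε * 4 ^ J := by
    calc ∑ n ∈ Finset.range J, ‖t n‖ ≤ ∑ n ∈ Finset.range J, ε * 4 ^ n :=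
          Finset.sum_le_sum fun n _ => c2 n
      _ = ε * ∑ n ∈ Finset.range J, (4 : ℝ) ^ n := by rw [Finset.mul_sum]
      _ ≤ ε * 4 ^ J := by
          gcongr
          rw [geom_sum_eq (by norm_num)]
          have : (1 : ℝ) ≤ 4 ^ J := one_le_pow₀ (by norm_num)
          rw [div_le_iff₀ (by norm_num)]
          nlinarith
  have d2 : ∑' n, ‖t (n + J)‖ ≤ 2 * A * (1 / 2) ^ J := by
    have hs2 : Summable fun n : ℕ => A * (1 / 2 : ℝ) ^ (n + J) := by
      have := (summable_nat_add_iff J).2 hgeo
      exact this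
    calc ∑' n, ‖t (n + J)‖ ≤ ∑' n : ℕ, A * (1 / 2 : ℝ) ^ (n + J) :=
          Summable.tsum_le_tsum (fun n => c1 (n + J)) ((summable_nat_add_iff J).2 hst) hs2
      _ = A * (1 / 2) ^ J * ∑' n : ℕ, (1 / 2 : ℝ) ^ n := by
          rw [← tsum_mul_left]
          congr 1
          funext n
          rw [pow_add]; ring
      _ = 2 * A * (1 / 2) ^ J := by
          rw [tsum_geometric_two]; ring
  exact add_le_add d1 d2

section Smooth

variable {E F : Type*} [NormedAddCommGroup E] [NormedSpace ℂ E] [NormedAddCommGroup F]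
  [NormedSpace ℂ F] [CompleteSpace F]

/-- Termwise differentiation on the open unit ball. -/
theorem iteratedFDeriv_tsum_ball {g : ℕ → E → F} (hg : ∀ k, ContDiff ℂ ⊤ (g k)) {v : ℕ → ℕ → ℝ}
    (hv : ∀ m, Summable (v m))
    (hb : ∀ m k, ∀ z ∈ ball (0 : E) 1, ‖iteratedFDeriv ℂ m (g k) z‖ ≤ v m k) (m : ℕ) :
    ∀ z ∈ ball (0 : E) 1, iteratedFDeriv ℂ m (fun y => ∑' k, g k y) z =
      ∑' k, iteratedFDeriv ℂ m (g k) z := by
  have hopen : IsOpen (ball (0 : E) 1) := isOpen_ball
  have hpre : IsPreconnected (ball (0 : E) 1) := by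
    have : Convex ℝ (ball (0 : E) 1) := convex_ball 0 1
    exact this.isPreconnected
  induction m with
  | zero =>
    intro z hz
    have hs : Summable fun k => g k z := by
      apply Summable.of_norm_bounded (hv 0)
      intro k
      have := hb 0 k z hz
      simpa using this
    ext1 x
    rw [iteratedFDeriv_zero_apply]
    have hs' : Summable fun k => iteratedFDeriv ℂ 0 (g k) z := by
      apply Summable.of_norm_bounded (hv 0)
      intro k
      exact hb 0 k z hz
    rw [ContinuousMultilinearMap.tsum_eval hs' x]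
    simp
  | succ m ih =>
    intro z hz
    have hder : HasFDerivAt (fun y => ∑' k, iteratedFDeriv ℂ m (g k) y)
        (∑' k, fderiv ℂ (iteratedFDeriv ℂ m (g k)) z) z := by
      apply hasFDerivAt_tsum_of_isPreconnected (hv (m + 1)) hopen hpre
        (f' := fun k y => fderiv ℂ (iteratedFDeriv ℂ m (g k)) y) (x₀ := (0 : E))
      · intro k y _
        have : Differentiable ℂ (iteratedFDeriv ℂ m (g k)) :=
          (hg k).differentiable_iteratedFDeriv (by exact_mod_cast WithTop.coe_lt_top _)
        exact (this y).hasFDerivAt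
      · intro k y hy
        rw [norm_fderiv_iteratedFDeriv]
        exact hb (m + 1) k y hy
      · exact mem_ball_self one_pos
      · apply Summable.of_norm_bounded (hv m)
        intro k
        exact hb m k 0 (mem_ball_self one_pos)
      · exact hz
    have heq : (fun y => iteratedFDeriv ℂ m (fun y => ∑' k, g k y) y) =ᶠ[𝓝 z]
        fun y => ∑' k, iteratedFDeriv ℂ m (g k) y := by
      filter_upwards [hopen.mem_nhds hz] with y hy using ih y hy
    rw [iteratedFDeriv_succ_eq_comp_left]
    have hf : fderiv ℂ (iteratedFDeriv ℂ m (fun y => ∑' k, g k y)) z =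
        ∑' k, fderiv ℂ (iteratedFDeriv ℂ m (g k)) z := by
      rw [Filter.EventuallyEq.fderiv_eq heq]
      exact hder.fderiv
    rw [Function.comp_apply, hf]
    have hs2 := (continuousMultilinearCurryLeftEquiv ℂ (fun _ : Fin (m + 1) => E)
      F).symm.toContinuousLinearEquiv.map_tsum (L := SummationFilter.unconditional ℕ)
      (f := fun k => fderiv ℂ (iteratedFDeriv ℂ m (g k)) z)
    exact hs2

end Smooth

end Pool.Agent.Y260
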