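import Mathlib
import Pool.Agent.Y260.NatBdA

set_option autoImplicit false

open Metric Set Filter Topology

namespace Pool.Agent.Y260

/-- the rapidly increasing sequence -/
def Ms : ℕ → ℕ
  | 0 => 1
  | k + 1 => 10 * Ms k ^ 2

lemma Ms_pos (k : ℕ) : 1 ≤ Ms k := by
  induction k with
  | zero => simp [Ms]
  | succ k ih => simp only [Ms]; nlinarith

lemma Ms_lt (k : ℕ) : Ms k < Ms (k + 1) := by
  have := Ms_pos k
  simp only [Ms]; nlinarith

lemma Ms_strictMono : StrictMono Ms := strictMono_nat_of_lt_succ Ms_lt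

lemma Ms_ge (k : ℕ) : k + 1 ≤ Ms k := by
  induction k with
  | zero => simp [Ms]
  | succ k ih => have := Ms_lt k; omega

lemma Ms_add (k j : ℕ) : Ms k + j ≤ Ms (k + j) := by
  induction j with
  | zero => simp
  | succ j ih =>
    have := Ms_lt (k + j)
    show Ms k + (j + 1) ≤ Ms (k + j + 1)
    omega

/-- exponents -/
def Ns (k : ℕ) : ℕ := Ms k ^ 2

lemma Ms_succ (k : ℕ) : Ms (k + 1) = 10 * Ns k := rfl

lemma Ns_ge (k : ℕ) : k + 1 ≤ Ns k := by
  have := Ms_ge k
  unfold Ns; nlinarith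

lemma Ns_mono {j k : ℕ} (h : j ≤ k) : Ns j ≤ Ns k :=
  Nat.pow_le_pow_left (Ms_strictMono.monotone h) 2

/-- coefficients -/
noncomputable def cs (k : ℕ) : ℝ := (1 / 2) ^ Ms k

lemma cs_pos (k : ℕ) : 0 < cs k := by unfold cs; positivity

lemma cs_le_one (k : ℕ) : cs k ≤ 1 := pow_le_one₀ (by norm_num) (by norm_num)

lemma summable_cs (m : ℕ) : Summable fun k => cs k * (Ns k : ℝ) ^ m := by
  have h := summable_pow_mul_geometric_of_norm_lt_one (2 * m) (r := (1 / 2 : ℝ)) (by norm_num)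
  have h2 := h.comp_injective Ms_strictMono.injective
  refine h2.congr fun k => ?_
  simp only [Function.comp_apply, cs, Ns]
  push_cast
  rw [← pow_mul]
  ring

lemma tail_cs (k : ℕ) : ∑' j, cs (j + (k + 1)) ≤ 2 * (1 / 2) ^ Ms (k + 1) := by
  have h1 : ∀ j, cs (j + (k + 1)) ≤ (1 / 2) ^ Ms (k + 1) * (1 / 2) ^ j := by
    intro j
    unfold cs
    rw [← pow_add]
    apply pow_le_pow_of_le_one (by norm_num) (by norm_num)
    have := Ms_add (k + 1) j
    rw [add_comm j]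
    exact this
  have h2 : Summable fun j : ℕ => (1 / 2 : ℝ) ^ Ms (k + 1) * (1 / 2) ^ j :=
    (summable_geometric_of_lt_one (by norm_num) (by norm_num)).mul_left _
  have h3 : Summable fun j => cs (j + (k + 1)) :=
    Summable.of_nonneg_of_le (fun j => (cs_pos _).le) h1 h2
  calc ∑' j, cs (j + (k + 1)) ≤ ∑' j : ℕ, (1 / 2 : ℝ) ^ Ms (k + 1) * (1 / 2) ^ j :=
        Summable.tsum_le_tsum h1 h3 h2
    _ = 2 * (1 / 2) ^ Ms (k + 1) := by
        rw [tsum_mul_left, tsum_geometric_two]; ring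

lemma head_cs (k : ℕ) : ∑ j ∈ Finset.range (k + 1), cs j * 2 ^ Ns j ≤ 2 ^ (2 * Ns k) := by
  calc ∑ j ∈ Finset.range (k + 1), cs j * 2 ^ Ns j
      ≤ ∑ j ∈ Finset.range (k + 1), (2 : ℝ) ^ Ns k := by
        apply Finset.sum_le_sum
        intro j hj
        have hj' : j ≤ k := by have := Finset.mem_range.1 hj; omega
        calc cs j * 2 ^ Ns j ≤ 1 * 2 ^ Ns j := by gcongr; exact cs_le_one j
          _ = 2 ^ Ns j := one_mul _
          _ ≤ 2 ^ Ns k := pow_le_pow_right₀ (by norm_num) (Ns_mono hj')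
    _ = (k + 1 : ℕ) * (2 : ℝ) ^ Ns k := by simp
    _ ≤ 2 ^ Ns k * 2 ^ Ns k := by
        gcongr
        have h1 : k + 1 ≤ 2 ^ Ns k := by
          have := Ns_ge k
          have h2 : Ns k < 2 ^ Ns k := Nat.lt_two_pow_self
          omega
        exact_mod_cast h1
    _ = 2 ^ (2 * Ns k) := by rw [← pow_add]; congr 1; ring

section Main

variable {E : Type*} [NormedAddCommGroup E] [InnerProductSpace ℂ E]

/-- The terms of the series. -/
noncomputable def term (ξ : ℕ → E) (k : ℕ) (z : E) : ℂ := (cs k : ℂ) * (inner ℂ (ξ k) z) ^ Ns k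

lemma term_contDiff (ξ : ℕ → E) (k : ℕ) : ContDiff ℂ ⊤ (term ξ k) := by
  unfold term
  have h : ContDiff ℂ ⊤ fun z : E => inner ℂ (ξ k) z := (innerSL ℂ (ξ k)).contDiff
  exact contDiff_const.mul (h.pow _)

lemma norm_term_le (ξ : ℕ → E) (hξ : ∀ k, ‖ξ k‖ = 1) (k : ℕ) (z : E) :
    ‖term ξ k z‖ ≤ cs k * ‖z‖ ^ Ns k := by
  unfold term
  rw [norm_mul, norm_pow, Complex.norm_real, Real.norm_of_nonneg (cs_pos k).le]
  have := norm_inner_le_norm (𝕜 := ℂ) (ξ k) z
  rw [hξ, one_mul] at this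
  have h0 := (cs_pos k).le
  gcongr

lemma norm_iter_term_le (ξ : ℕ → E) (hξ : ∀ k, ‖ξ k‖ = 1) (m k : ℕ) (z : E) (hz : ‖z‖ ≤ 1) :
    ‖iteratedFDeriv ℂ m (term ξ k) z‖ ≤ cs k * (Ns k : ℝ) ^ m := by
  set L : E →L[ℂ] ℂ := innerSL ℂ (ξ k) with hL
  set P : ℂ → ℂ := fun w => (cs k : ℂ) * w ^ Ns k with hP
  have hcomp : term ξ k = P ∘ L := by
    funext z; simp [term, hP, hL]
  have hPc : ContDiff ℂ ⊤ P := contDiff_const.mul (contDiff_id.pow _)
  rw [hcomp, L.iteratedFDeriv_comp_right hPc z (i := m) (by exact_mod_cast le_top)]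
  refine (ContinuousMultilinearMap.norm_compContinuousLinearMap_le _ _).trans ?_
  have hLn : ‖L‖ = 1 := by rw [hL, innerSL_apply_norm, hξ]
  simp only [hLn, Finset.prod_const_one, mul_one]
  rw [norm_iteratedFDeriv_eq_norm_iteratedDeriv]
  have hLz : ‖L z‖ ≤ 1 := by
    have := L.le_opNorm z
    rw [hLn, one_mul] at this
    exact this.trans hz
  have hd : iteratedDeriv m P (L z) =
      (cs k : ℂ) * (((Ns k).descFactorial m : ℂ) * (L z) ^ (Ns k - m)) := by
    rw [hP, iteratedDeriv_const_mul_field, iteratedDeriv_pow]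
  rw [hd, norm_mul, norm_mul, norm_pow, Complex.norm_real, Real.norm_of_nonneg (cs_pos k).le,
    Complex.norm_natCast]
  have h1 : ((Ns k).descFactorial m : ℝ) ≤ (Ns k : ℝ) ^ m := by
    exact_mod_cast Nat.descFactorial_le_pow (Ns k) m
  have h2 : ‖L z‖ ^ (Ns k - m) ≤ 1 := pow_le_one₀ (norm_nonneg _) hLz
  have h0 := (cs_pos k).le
  calc cs k * (((Ns k).descFactorial m : ℝ) * ‖L z‖ ^ (Ns k - m))
      ≤ cs k * ((Ns k : ℝ) ^ m * 1) := by gcongr
    _ = cs k * (Ns k : ℝ) ^ m := by ring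

/-- The function. -/
noncomputable def nbf (ξ : ℕ → E) (z : E) : ℂ := ∑' k, term ξ k z

lemma summable_term (ξ : ℕ → E) (hξ : ∀ k, ‖ξ k‖ = 1) (z : E) (hz : ‖z‖ ≤ 1) :
    Summable fun k => term ξ k z := by
  have h := summable_cs 0
  simp only [pow_zero, mul_one] at h
  apply Summable.of_norm_bounded h
  intro k
  refine (norm_term_le ξ hξ k z).trans ?_
  have : ‖z‖ ^ Ns k ≤ 1 := pow_le_one₀ (norm_nonneg _) hz
  have h0 := (cs_pos k).le
  nlinarith

theorem nbf_smooth (ξ : ℕ → E) (hξ : ∀ k, ‖ξ k‖ = 1) (m : ℕ) :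
    ∃ g : E → E [×m]→L[ℂ] ℂ, ContinuousOn g (closedBall 0 1) ∧
      ∀ z ∈ ball (0 : E) 1, iteratedFDeriv ℂ m (nbf ξ) z = g z := by
  refine ⟨fun z => ∑' k, iteratedFDeriv ℂ m (term ξ k) z, ?_, ?_⟩
  · apply continuousOn_tsum (u := fun k => cs k * (Ns k : ℝ) ^ m)
    · intro k
      have : Continuous (iteratedFDeriv ℂ m (term ξ k)) :=
        (term_contDiff ξ k).continuous_iteratedFDeriv (by exact_mod_cast le_top)
      exact this.continuousOn
    · exact summable_cs m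
    · intro k z hz
      exact norm_iter_term_le ξ hξ m k z (by simpa using hz)
  · exact iteratedFDeriv_tsum_ball (term_contDiff ξ) (v := fun m k => cs k * (Ns k : ℝ) ^ m)
      summable_cs (fun m k z hz => norm_iter_term_le ξ hξ m k z (by
        have : ‖z‖ < 1 := by simpa using hz
        exact this.le)) m

theorem nbf_differentiableOn (ξ : ℕ → E) (hξ : ∀ k, ‖ξ k‖ = 1) :
    DifferentiableOn ℂ (nbf ξ) (ball 0 1) := by
  intro z hz
  have hopen : IsOpen (ball (0 : E) 1) := isOpen_ball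
  have hpre : IsPreconnected (ball (0 : E) 1) := by
    have : Convex ℝ (ball (0 : E) 1) := convex_ball 0 1
    exact this.isPreconnected
  have hder : HasFDerivAt (nbf ξ) (∑' k, fderiv ℂ (term ξ k) z) z := by
    apply hasFDerivAt_tsum_of_isPreconnected (summable_cs 1) hopen hpre
      (f' := fun k y => fderiv ℂ (term ξ k) y) (x₀ := (0 : E))
    · intro k y _
      exact ((term_contDiff ξ k).differentiable (by simp) y).hasFDerivAt
    · intro k y hy
      have h1 := norm_iter_term_le ξ hξ 1 k y (by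
        have : ‖y‖ < 1 := by simpa using hy
        exact this.le)
      rwa [norm_iteratedFDeriv_one] at h1
    · exact mem_ball_self one_pos
    · exact summable_term ξ hξ 0 (by simp)
    · exact hz
  exact hder.differentiableAt.differentiableWithinAt

/-- norms along an affine disc with boundary in the sphere -/
lemma norm_affine {a b : E} (h : ∀ τ : ℂ, ‖τ‖ = 1 → ‖a + τ • b‖ = 1) (w : ℂ) :
    ‖a + w • b‖ ^ 2 = 1 + (‖w‖ ^ 2 - 1) * ‖b‖ ^ 2 := by
  have key : ∀ w : ℂ, ‖a + w • b‖ ^ 2 =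
      ‖a‖ ^ 2 + 2 * (w * inner ℂ a b).re + ‖w‖ ^ 2 * ‖b‖ ^ 2 := by
    intro w
    rw [@norm_add_sq ℂ, inner_smul_right, norm_smul, mul_pow]
    rfl
  have h1 := key 1
  have h2 := key (-1)
  have h3 := key Complex.I
  have h4 := key (-Complex.I)
  rw [h 1 (by simp)] at h1
  rw [h (-1) (by simp)] at h2
  rw [h Complex.I (by simp)] at h3
  rw [h (-Complex.I) (by simp)] at h4
  simp at h1 h2 h3 h4
  have e1 : (inner ℂ a b : ℂ).re = 0 := by linarith
  have e2 : (inner ℂ a b : ℂ).im = 0 := by linarith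
  have e3 : (inner ℂ a b : ℂ) = 0 := Complex.ext e1 e2
  rw [key w, e3]
  simp only [mul_zero, Complex.zero_re]
  rw [e1] at h1
  linarith

end Main

end Pool.Agent.Y260
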