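import Mathlib
import Pool.Agent.Y260.NatBdB

set_option autoImplicit false

open Metric Set Filter Topology

namespace Pool.Agent.Y260

section Main

variable {E : Type*} [NormedAddCommGroup E] [InnerProductSpace ℂ E]

/-- Choice of the directions: unit vectors such that every tail is dense in the unit sphere. -/
theorem exists_dirs [TopologicalSpace.SeparableSpace E] [Nontrivial E] :
    ∃ ξ : ℕ → E, (∀ k, ‖ξ k‖ = 1) ∧ ∀ ζ : E, ‖ζ‖ = 1 → ∀ η > 0, ∀ k₀ : ℕ, ∃ k ≥ k₀,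
      ‖ξ k - ζ‖ < η := by
  have hne : Nonempty (sphere (0 : E) 1) := by
    obtain ⟨x, hx⟩ := exists_ne (0 : E)
    refine ⟨⟨((‖x‖⁻¹ : ℝ) : ℂ) • x, ?_⟩⟩
    rw [mem_sphere_zero_iff_norm, norm_smul, Complex.norm_real, norm_inv, norm_norm,
      inv_mul_cancel₀ (norm_ne_zero_iff.2 hx)]
  have hsep : TopologicalSpace.SeparableSpace (sphere (0 : E) 1) := by
    have : SecondCountableTopology E := UniformSpace.secondCountable_of_separable E
    infer_instance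
  set d := TopologicalSpace.denseSeq (sphere (0 : E) 1) with hd
  refine ⟨fun k => (d (Nat.unpair k).1 : E), fun k => by simp, ?_⟩
  intro ζ hζ η hη k₀
  have hdense := TopologicalSpace.denseRange_denseSeq (sphere (0 : E) 1)
  obtain ⟨j, hj⟩ := hdense.exists_dist_lt ⟨ζ, by simpa using hζ⟩ hη
  refine ⟨Nat.pair j k₀, Nat.right_le_pair j k₀, ?_⟩
  simp only [Nat.unpair_pair]
  rw [Subtype.dist_eq, dist_comm, dist_eq_norm] at hj
  exact hj

theorem not_extend (ξ : ℕ → E) (hξ : ∀ k, ‖ξ k‖ = 1)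
    (hd : ∀ ζ : E, ‖ζ‖ = 1 → ∀ η > 0, ∀ k₀ : ℕ, ∃ k ≥ k₀, ‖ξ k - ζ‖ < η)
    {a b : E} (hb : b ≠ 0) (hab : ∀ τ : ℂ, ‖τ‖ = 1 → ‖a + τ • b‖ = 1)
    {τ : ℂ} (hτ : ‖τ‖ = 1) {δ : ℝ} (hδ : 0 < δ) (hδ1 : δ ≤ 1) {h : ℂ → ℂ} {B : ℝ}
    (hh : DifferentiableOn ℂ h (ball τ δ)) (hB : ∀ w ∈ ball τ δ, ‖h w‖ ≤ B)
    (heq : ∀ w ∈ ball τ δ, ‖w‖ < 1 → h w = nbf ξ (a + w • b)) : False := by
  have hB0 : 0 ≤ B := (norm_nonneg _).trans (hB τ (mem_ball_self hδ))
  have hbn : 0 < ‖b‖ := norm_pos_iff.2 hb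
  have hb1 : ‖b‖ ≤ 1 := by
    have := norm_affine hab 0
    simp at this
    nlinarith [sq_nonneg ‖a‖, norm_nonneg b]
  set R := δ / 2 with hR
  have hR0 : 0 < R := by positivity
  set c : ℂ := ((1 - R / 8 : ℝ) : ℂ) * τ with hc
  set p : ℂ := ((1 + R / 8 : ℝ) : ℂ) * τ with hp
  have hcτ : ‖c - τ‖ = R / 8 := by
    have : c - τ = ((-(R / 8) : ℝ) : ℂ) * τ := by rw [hc]; push_cast; ring
    rw [this, norm_mul, hτ, mul_one, Complex.norm_real, norm_neg, Real.norm_of_nonneg (by positivity)]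
  have hcn : ‖c‖ = 1 - R / 8 := by
    rw [hc, norm_mul, hτ, mul_one, Complex.norm_real, Real.norm_of_nonneg (by linarith)]
  have hpc : ‖p - c‖ ≤ R / 4 := by
    have : p - c = ((R / 4 : ℝ) : ℂ) * τ := by rw [hp, hc]; push_cast; ring
    rw [this, norm_mul, hτ, mul_one, Complex.norm_real, Real.norm_of_nonneg (by positivity)]
  have hpn : ‖p‖ = 1 + R / 8 := by
    rw [hp, norm_mul, hτ, mul_one, Complex.norm_real, Real.norm_of_nonneg (by positivity)]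
  have hsub : ball c R ⊆ ball τ δ := by
    intro w hw
    rw [mem_ball, dist_eq_norm] at hw ⊢
    calc ‖w - τ‖ = ‖(w - c) + (c - τ)‖ := by congr 1; ring
      _ ≤ ‖w - c‖ + ‖c - τ‖ := norm_add_le _ _
      _ < δ := by rw [hcτ]; linarith
  have hsub2 : ball c (R / 8) ⊆ ball c R := ball_subset_ball (by linarith)
  -- partial sums
  set T : ℕ → ℂ → ℂ := fun k w => h w - ∑ j ∈ Finset.range (k + 1), term ξ j (a + w • b) with hT
  have hTd : ∀ k, DifferentiableOn ℂ (T k) (ball c R) := by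
    intro k
    apply (hh.mono hsub).sub
    apply Differentiable.differentiableOn
    apply Differentiable.fun_sum
    intro j _
    have h1 : Differentiable ℂ (term ξ j) := (term_contDiff ξ j).differentiable (by simp)
    exact h1.comp (by fun_prop)
  have hw2 : ∀ w ∈ ball c R, ‖a + w • b‖ ≤ 2 := by
    intro w hw
    have h1 : ‖w‖ ≤ 2 := by
      rw [mem_ball, dist_eq_norm] at hw
      calc ‖w‖ = ‖(w - c) + c‖ := by congr 1; ring
        _ ≤ ‖w - c‖ + ‖c‖ := norm_add_le _ _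
        _ ≤ 2 := by rw [hcn]; linarith
    have h2 := norm_affine hab w
    have h3 : ‖a + w • b‖ ^ 2 ≤ 4 := by
      rw [h2]
      by_cases hc1 : ‖w‖ ^ 2 - 1 ≤ 0
      · have : (‖w‖ ^ 2 - 1) * ‖b‖ ^ 2 ≤ 0 := mul_nonpos_of_nonpos_of_nonneg hc1 (sq_nonneg _)
        linarith
      · have hc1 := not_le.1 hc1
        have h4 : ‖b‖ ^ 2 ≤ 1 := pow_le_one₀ (norm_nonneg _) hb1
        have h5 : ‖w‖ ^ 2 ≤ 4 := by nlinarith [norm_nonneg w]
        nlinarith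
    nlinarith [norm_nonneg (a + w • b)]
  have hTA : ∀ k, ∀ w ∈ ball c R, ‖T k w‖ ≤ B + 2 ^ (2 * Ns k) := by
    intro k w hw
    simp only [hT]
    refine (norm_sub_le _ _).trans (add_le_add (hB w (hsub hw)) ?_)
    refine (norm_sum_le _ _).trans (le_trans ?_ (head_cs k))
    apply Finset.sum_le_sum
    intro j _
    refine (norm_term_le ξ hξ j _).trans ?_
    have h0 := (cs_pos j).le
    have := hw2 w hw
    gcongr
  have hTε : ∀ k, ∀ w ∈ ball c (R / 8), ‖T k w‖ ≤ 2 * (1 / 2) ^ Ms (k + 1) := by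
    intro k w hw
    have hw1 : ‖w‖ < 1 := by
      rw [mem_ball, dist_eq_norm] at hw
      calc ‖w‖ = ‖(w - c) + c‖ := by congr 1; ring
        _ ≤ ‖w - c‖ + ‖c‖ := norm_add_le _ _
        _ < 1 := by rw [hcn]; linarith
    have hz1 : ‖a + w • b‖ ≤ 1 := by
      have h2 := norm_affine hab w
      have h3 : ‖a + w • b‖ ^ 2 ≤ 1 := by
        rw [h2]
        have : (‖w‖ ^ 2 - 1) * ‖b‖ ^ 2 ≤ 0 :=
          mul_nonpos_of_nonpos_of_nonneg (by nlinarith [norm_nonneg w]) (sq_nonneg _)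
        linarith
      nlinarith [norm_nonneg (a + w • b)]
    have hs := summable_term ξ hξ _ hz1
    have h1 : T k w = ∑' j, term ξ (j + (k + 1)) (a + w • b) := by
      simp only [hT]
      rw [heq w (hsub (hsub2 hw)) hw1, nbf, ← hs.sum_add_tsum_nat_add (k + 1)]
      ring
    rw [h1]
    have hcs : Summable fun j => cs (j + (k + 1)) := by
      have := summable_cs 0
      simp only [pow_zero, mul_one] at this
      exact (summable_nat_add_iff (k + 1)).2 this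
    have hle : ∀ j, ‖term ξ (j + (k + 1)) (a + w • b)‖ ≤ cs (j + (k + 1)) := by
      intro j
      refine (norm_term_le ξ hξ _ _).trans ?_
      have : ‖a + w • b‖ ^ Ns (j + (k + 1)) ≤ 1 := pow_le_one₀ (norm_nonneg _) hz1
      have h0 := (cs_pos (j + (k + 1))).le
      nlinarith
    have hns : Summable fun j => ‖term ξ (j + (k + 1)) (a + w • b)‖ :=
      Summable.of_nonneg_of_le (fun _ => norm_nonneg _) hle hcs
    calc ‖∑' j, term ξ (j + (k + 1)) (a + w • b)‖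
        ≤ ∑' j, ‖term ξ (j + (k + 1)) (a + w • b)‖ := norm_tsum_le_tsum_norm hns
      _ ≤ ∑' j, cs (j + (k + 1)) := Summable.tsum_le_tsum hle hns hcs
      _ ≤ 2 * (1 / 2) ^ Ms (k + 1) := tail_cs k
  -- smallness at p
  obtain ⟨K, hK⟩ := pow_unbounded_of_one_lt B (one_lt_two : (1 : ℝ) < 2)
  have hTp : ∀ k, K + 2 ≤ k → ‖T k p‖ ≤ 1 := by
    intro k hk
    have h1 := two_const hR0 (hTd k) (hTA k) (hTε k) (2 * Ns k + 3) hpc
    refine h1.trans ?_
    have hNk := Ns_ge k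
    have hBk : B ≤ 2 ^ (2 * Ns k) :=
      hK.le.trans (pow_le_pow_right₀ (by norm_num) (by omega))
    have e1 : 2 * (B + 2 ^ (2 * Ns k)) * (1 / 2 : ℝ) ^ (2 * Ns k + 3) ≤ 1 / 2 := by
      calc 2 * (B + 2 ^ (2 * Ns k)) * (1 / 2 : ℝ) ^ (2 * Ns k + 3)
          ≤ 2 * (2 ^ (2 * Ns k) + 2 ^ (2 * Ns k)) * (1 / 2 : ℝ) ^ (2 * Ns k + 3) := by gcongr
        _ = (2 * (1 / 2 : ℝ)) ^ (2 * Ns k) * (1 / 2) := by rw [mul_pow, pow_add]; ring
        _ = 1 / 2 := by norm_num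
    have e2 : 2 * (1 / 2 : ℝ) ^ Ms (k + 1) * 4 ^ (2 * Ns k + 3) ≤ 1 / 2 := by
      rw [Ms_succ]
      have e3 : (4 : ℝ) ^ (2 * Ns k + 3) = 2 ^ (4 * Ns k) * 64 := by
        rw [pow_add, show (4 : ℝ) = 2 ^ 2 by norm_num, ← pow_mul, ← pow_mul]
        norm_num
        ring
      have e4 : (1 / 2 : ℝ) ^ (10 * Ns k) = (1 / 2) ^ (4 * Ns k) * (1 / 2) ^ (6 * Ns k) := by
        rw [← pow_add]; congr 1; ring
      have e5 : (1 / 2 : ℝ) ^ (6 * Ns k) ≤ (1 / 2) ^ 8 :=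
        pow_le_pow_of_le_one (by norm_num) (by norm_num) (by omega)
      have e6 : (1 / 2 : ℝ) ^ (4 * Ns k) * 2 ^ (4 * Ns k) = 1 := by
        rw [← mul_pow]; norm_num
      calc 2 * (1 / 2 : ℝ) ^ (10 * Ns k) * 4 ^ (2 * Ns k + 3)
          = 128 * ((1 / 2 : ℝ) ^ (4 * Ns k) * 2 ^ (4 * Ns k)) * (1 / 2) ^ (6 * Ns k) := by
            rw [e3, e4]; ring
        _ = 128 * (1 / 2) ^ (6 * Ns k) := by rw [e6]; ring
        _ ≤ 128 * (1 / 2) ^ 8 := by gcongr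
        _ = 1 / 2 := by norm_num
    linarith
  have hterm : ∀ k, K + 3 ≤ k → ‖term ξ k (a + p • b)‖ ≤ 2 := by
    intro k hk
    obtain ⟨k', rfl⟩ : ∃ k', k = k' + 1 := ⟨k - 1, by omega⟩
    have h1 := hTp k' (by omega)
    have h2 := hTp (k' + 1) (by omega)
    have h3 : term ξ (k' + 1) (a + p • b) = T k' p - T (k' + 1) p := by
      simp only [hT]
      rw [Finset.sum_range_succ _ (k' + 1)]
      ring
    rw [h3]
    exact (norm_sub_le _ _).trans (by linarith)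
  -- but these terms are large infinitely often
  set z := a + p • b with hz
  have hz1 : 1 < ‖z‖ := by
    have h2 := norm_affine hab p
    rw [← hz, hpn] at h2
    have h3 : 1 < ‖z‖ ^ 2 := by
      rw [h2]
      have : 0 < ((1 + R / 8) ^ 2 - 1) * ‖b‖ ^ 2 := by
        apply mul_pos _ (by positivity)
        nlinarith
      linarith
    nlinarith [norm_nonneg z]
  set η := (‖z‖ - 1) / 2 with hη
  have hη0 : 0 < η := by rw [hη]; linarith
  obtain ⟨L, hL⟩ := pow_unbounded_of_one_lt 4 (show 1 < 1 + η by linarith)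
  have hzpos : 0 < ‖z‖ := by linarith
  obtain ⟨k, hk, hkd⟩ := hd (((‖z‖⁻¹ : ℝ) : ℂ) • z)
    (by rw [norm_smul, Complex.norm_real, norm_inv, norm_norm, inv_mul_cancel₀ hzpos.ne'])
    (η / ‖z‖) (by positivity) (K + 3 + L)
  have hin : 1 + η ≤ ‖(inner ℂ (ξ k) z : ℂ)‖ := by
    have h1 : (inner ℂ (((‖z‖⁻¹ : ℝ) : ℂ) • z) z : ℂ) = ((‖z‖ : ℝ) : ℂ) := by
      rw [inner_smul_left, inner_self_eq_norm_sq_to_K]
      simp only [Complex.conj_ofReal]
      have hz0 : ((‖z‖ : ℝ) : ℂ) ≠ 0 := by exact_mod_cast hzpos.ne'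
      change ((‖z‖⁻¹ : ℝ) : ℂ) * ((‖z‖ : ℝ) : ℂ) ^ 2 = ((‖z‖ : ℝ) : ℂ)
      rw [Complex.ofReal_inv]
      field_simp
    have h2 : (inner ℂ (ξ k) z : ℂ) = ((‖z‖ : ℝ) : ℂ) +
        inner ℂ (ξ k - ((‖z‖⁻¹ : ℝ) : ℂ) • z) z := by
      rw [inner_sub_left, h1]; ring
    have h3 := norm_inner_le_norm (𝕜 := ℂ) (ξ k - ((‖z‖⁻¹ : ℝ) : ℂ) • z) z
    have h4 : ‖ξ k - ((‖z‖⁻¹ : ℝ) : ℂ) • z‖ * ‖z‖ ≤ η := by
      have := mul_le_mul_of_nonneg_right hkd.le hzpos.le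
      rwa [div_mul_cancel₀ _ hzpos.ne'] at this
    have h5 : ‖((‖z‖ : ℝ) : ℂ)‖ ≤ ‖(inner ℂ (ξ k) z : ℂ)‖ +
        ‖(inner ℂ (ξ k - ((‖z‖⁻¹ : ℝ) : ℂ) • z) z : ℂ)‖ := by
      rw [h2]
      have := norm_sub_le (((‖z‖ : ℝ) : ℂ) + inner ℂ (ξ k - ((‖z‖⁻¹ : ℝ) : ℂ) • z) z)
        (inner ℂ (ξ k - ((‖z‖⁻¹ : ℝ) : ℂ) • z) z)
      rwa [add_sub_cancel_right] at this
    rw [Complex.norm_real, norm_norm] at h5
    have h6 : ‖z‖ = 1 + 2 * η := by rw [hη]; ring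
    linarith
  have hbig : 4 ≤ ‖term ξ k z‖ := by
    unfold term
    rw [norm_mul, norm_pow, Complex.norm_real, Real.norm_of_nonneg (cs_pos k).le]
    have hMk := Ms_ge k
    have h1 : (4 : ℝ) ≤ (1 + η) ^ Ms k :=
      hL.le.trans (pow_le_pow_right₀ (by linarith) (by omega))
    calc (4 : ℝ) = 2 ^ 2 := by norm_num
      _ ≤ 2 ^ Ms k := pow_le_pow_right₀ (by norm_num) (by omega)
      _ = ((1 / 2) * 4) ^ Ms k := by norm_num
      _ = cs k * 4 ^ Ms k := by rw [mul_pow]; rfl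
      _ ≤ cs k * ((1 + η) ^ Ms k) ^ Ms k := by
          have h0 := (cs_pos k).le
          gcongr
      _ = cs k * (1 + η) ^ Ns k := by rw [← pow_mul]; congr 2; unfold Ns; ring
      _ ≤ cs k * ‖(inner ℂ (ξ k) z : ℂ)‖ ^ Ns k := by
          have h0 := (cs_pos k).le
          gcongr
  have := hterm k (by omega)
  linarith

/-- Existence of a function smooth up to the boundary all of whose slices have the circle as
natural boundary. -/
theorem exists_nb [TopologicalSpace.SeparableSpace E] [Nontrivial E] :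
    ∃ f : E → ℂ, DifferentiableOn ℂ f (ball 0 1) ∧
      (∀ m : ℕ, ∃ g : E → E [×m]→L[ℂ] ℂ, ContinuousOn g (closedBall 0 1) ∧
        ∀ z ∈ ball (0 : E) 1, iteratedFDeriv ℂ m f z = g z) ∧
      ∀ a b : E, b ≠ 0 → (∀ τ : ℂ, ‖τ‖ = 1 → ‖a + τ • b‖ = 1) →
        ∀ τ : ℂ, ‖τ‖ = 1 → ¬ ∃ (c : ℂ) (r : ℝ) (h : ℂ → ℂ), τ ∈ ball c r ∧
          DifferentiableOn ℂ h (ball c r) ∧ ∀ w ∈ ball c r, ‖w‖ < 1 → h w = f (a + w • b) := by
  obtain ⟨ξ, hξ, hd⟩ := exists_dirs (E := E)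
  refine ⟨nbf ξ, nbf_differentiableOn ξ hξ, nbf_smooth ξ hξ, ?_⟩
  rintro a b hb hab τ hτ ⟨c, r, h, hτc, hh, heq⟩
  obtain ⟨δ₀, hδ₀, hsub⟩ := Metric.isOpen_iff.1 (isOpen_ball (x := c) (ε := r)) τ hτc
  set δ := min (δ₀ / 2) 1 with hδ
  have hδpos : 0 < δ := lt_min (by positivity) one_pos
  have hcl : closedBall τ δ ⊆ ball c r := by
    refine Subset.trans ?_ hsub
    exact closedBall_subset_ball (lt_of_le_of_lt (min_le_left _ _) (by linarith))
  obtain ⟨B, hB⟩ := (isCompact_closedBall τ δ).exists_bound_of_continuousOn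
    (hh.continuousOn.mono hcl)
  exact not_extend ξ hξ hd hb hab hτ hδpos (min_le_right _ _)
    (hh.mono (ball_subset_closedBall.trans hcl)) (fun w hw => hB w (ball_subset_closedBall hw))
    (fun w hw hw1 => heq w (hcl (ball_subset_closedBall hw)) hw1)

end Main

end Pool.Agent.Y260
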