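import Mathlib

set_option autoImplicit false

open Set Topology Filter
open scoped Manifold ContDiff

namespace Pool.Agent.Y260.PP

/-- nonzero vectors of `ℂ³` -/
abbrev V3 : Type := {v : Fin 3 → ℂ // v ≠ 0}

/-- proportionality -/
def sd : Setoid V3 where
  r v w := ∃ c : ℂ, c ≠ 0 ∧ ∀ i, w.1 i = c * v.1 i
  iseqv := by
    refine ⟨fun v => ⟨1, one_ne_zero, fun i => (one_mul _).symm⟩, ?_, ?_⟩
    · rintro v w ⟨c, hc, h⟩
      exact ⟨c⁻¹, inv_ne_zero hc, fun i => by rw [h i, inv_mul_cancel_left₀ hc]⟩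
    · rintro u v w ⟨c, hc, h⟩ ⟨d, hd, h'⟩
      exact ⟨d * c, mul_ne_zero hd hc, fun i => by rw [h' i, h i, mul_assoc]⟩

/-- the complex projective plane -/
def P2 : Type := Quotient sd

instance : TopologicalSpace P2 := inferInstanceAs (TopologicalSpace (Quotient sd))

/-- the projection -/
def pr (v : V3) : P2 := Quotient.mk sd v

lemma pr_surj : Function.Surjective pr := Quotient.mk_surjective

lemma pr_cont : Continuous pr := continuous_quotient_mk'

lemma pr_eq_iff {v w : V3} : pr v = pr w ↔ ∃ c : ℂ, c ≠ 0 ∧ ∀ i, w.1 i = c * v.1 i :=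
  Quotient.eq (r := sd)

lemma ap_cont (i : Fin 3) : Continuous (fun v : V3 => v.1 i) :=
  (continuous_apply i).comp continuous_subtype_val

lemma pr_open : IsOpenMap pr := by
  intro S hS
  have h1 : pr ⁻¹' (pr '' S) = ⋃ c : {c : ℂ // c ≠ 0},
      (fun v : V3 => (⟨c.1 • v.1, smul_ne_zero c.2 v.2⟩ : V3)) ⁻¹' S := by
    ext v
    simp only [mem_preimage, mem_iUnion, mem_image]
    constructor
    · rintro ⟨w, hw, hwv⟩
      obtain ⟨c, hc, h⟩ := pr_eq_iff.1 hwv.symm
      refine ⟨⟨c, hc⟩, ?_⟩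
      have : (⟨c • v.1, smul_ne_zero hc v.2⟩ : V3) = w := by
        apply Subtype.ext
        funext i
        simp [h i]
      rw [this]; exact hw
    · rintro ⟨⟨c, hc⟩, h⟩
      exact ⟨_, h, (pr_eq_iff.2 ⟨c, hc, fun i => by simp⟩).symm⟩
  have h2 : IsOpen (pr ⁻¹' (pr '' S)) := by
    rw [h1]
    refine isOpen_iUnion fun c => hS.preimage ?_
    exact Continuous.subtype_mk (continuous_subtype_val.const_smul c.1) _
  exact h2

lemma pr_oq : IsOpenQuotientMap pr := ⟨pr_surj, pr_cont, pr_open⟩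

lemma pr_eq_iff' {v w : V3} : pr v = pr w ↔ ∀ i j, v.1 i * w.1 j = v.1 j * w.1 i := by
  rw [pr_eq_iff]
  constructor
  · rintro ⟨c, hc, h⟩ i j
    rw [h i, h j]; ring
  · intro h
    obtain ⟨i, hi⟩ : ∃ i, v.1 i ≠ 0 := by
      by_contra hn
      push Not at hn
      exact v.2 (funext hn)
    obtain ⟨j, hj⟩ : ∃ j, w.1 j ≠ 0 := by
      by_contra hn
      push Not at hn
      exact w.2 (funext hn)
    have hwi : w.1 i ≠ 0 := by
      intro h0
      have := h i j
      rw [h0, mul_zero] at this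
      exact (mul_ne_zero hi hj) this
    refine ⟨w.1 i / v.1 i, div_ne_zero hwi hi, fun k => ?_⟩
    have := h i k
    field_simp
    linear_combination this

instance : T2Space P2 := by
  rw [t2Space_iff_of_isOpenQuotientMap pr_oq]
  have : {q : V3 × V3 | pr q.1 = pr q.2} =
      ⋂ i, ⋂ j, {q : V3 × V3 | q.1.1 i * q.2.1 j = q.1.1 j * q.2.1 i} := by
    ext q
    simp only [mem_ofPred_eq, mem_iInter]
    exact pr_eq_iff'
  rw [this]
  refine isClosed_iInter fun i => isClosed_iInter fun j => isClosed_eq ?_ ?_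
  · exact ((ap_cont i).comp continuous_fst).mul ((ap_cont j).comp continuous_snd)
  · exact ((ap_cont j).comp continuous_fst).mul ((ap_cont i).comp continuous_snd)

/-- projection of the unit sphere -/
def sp (v : Metric.sphere (0 : Fin 3 → ℂ) 1) : P2 :=
  pr ⟨v.1, fun h => by
    have h1 := v.2
    rw [h] at h1
    simp at h1⟩

lemma sp_cont : Continuous sp := pr_cont.comp (Continuous.subtype_mk continuous_subtype_val _)

lemma sp_surj : Function.Surjective sp := by
  intro x
  obtain ⟨v, rfl⟩ := pr_surj x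
  have hr : 0 < ‖v.1‖ := norm_pos_iff.mpr v.2
  have hn : ‖((‖v.1‖⁻¹ : ℝ) : ℂ) • v.1‖ = 1 := by
    rw [norm_smul, Complex.norm_real, norm_inv, norm_norm, inv_mul_cancel₀ hr.ne']
  refine ⟨⟨((‖v.1‖⁻¹ : ℝ) : ℂ) • v.1, by rw [mem_sphere_zero_iff_norm]; exact hn⟩, ?_⟩
  refine pr_eq_iff.2 ⟨(‖v.1‖ : ℂ), by exact_mod_cast hr.ne', fun i => ?_⟩
  simp only [Pi.smul_apply, smul_eq_mul, Complex.ofReal_inv]
  rw [mul_inv_cancel_left₀]
  exact_mod_cast hr.ne'

instance : CompactSpace P2 := by
  have : CompactSpace (Metric.sphere (0 : Fin 3 → ℂ) 1) :=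
    isCompact_iff_compactSpace.mp (isCompact_sphere _ _)
  constructor
  rw [← sp_surj.range_eq, ← Set.image_univ]
  exact isCompact_univ.image sp_cont

instance : ConnectedSpace P2 := by
  have h3 : 1 < Module.rank ℝ (Fin 3 → ℂ) := by
    rw [← Module.finrank_eq_rank]
    have : Module.finrank ℝ (Fin 3 → ℂ) = 6 := by
      rw [Module.finrank_pi_fintype]
      simp [Complex.finrank_real_complex]
    rw [this]
    norm_num
  have h4 : IsConnected (Metric.sphere (0 : Fin 3 → ℂ) 1) := isConnected_sphere h3 0 zero_le_one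
  have : ConnectedSpace (Metric.sphere (0 : Fin 3 → ℂ) 1) :=
    isConnected_iff_connectedSpace.1 h4
  exact sp_surj.connectedSpace sp_cont

/-! ### charts -/

abbrev E2 : Type := Fin 2 → ℂ

/-- the domain of the `i`-th chart -/
def U (i : Fin 3) : Set P2 := pr '' {v | v.1 i ≠ 0}

lemma mem_U {i : Fin 3} {v : V3} : pr v ∈ U i ↔ v.1 i ≠ 0 := by
  constructor
  · rintro ⟨w, hw, h⟩
    obtain ⟨c, hc, h⟩ := pr_eq_iff.1 h
    rw [h i]
    exact mul_ne_zero hc hw
  · intro h
    exact ⟨v, h, rfl⟩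

lemma U_open (i : Fin 3) : IsOpen (U i) := by
  refine pr_open _ ?_
  exact isOpen_ne_fun (ap_cont i) continuous_const

lemma U_cover (x : P2) : ∃ i, x ∈ U i := by
  obtain ⟨v, rfl⟩ := pr_surj x
  by_contra hn
  push Not at hn
  exact v.2 (funext fun i => by
    by_contra hi
    exact hn i (mem_U.2 hi))

/-- affine coordinates -/
noncomputable def co (i : Fin 3) : P2 → E2 :=
  Quotient.lift (fun (v : V3) (k : Fin 2) => v.1 (i.succAbove k) / v.1 i) (by
    rintro v w ⟨c, hc, h⟩
    funext k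
    rw [h, h, mul_div_mul_left _ _ hc])

lemma co_pr (i : Fin 3) (v : V3) (k : Fin 2) :
    co i (pr v) k = v.1 (i.succAbove k) / v.1 i := rfl

/-- homogeneous coordinates from affine ones -/
def hom (i : Fin 3) (u : E2) : Fin 3 → ℂ := i.insertNth (α := fun _ => ℂ) 1 u

lemma hom_self (i : Fin 3) (u : E2) : hom i u i = 1 := by simp [hom]

lemma hom_succ (i : Fin 3) (u : E2) (k : Fin 2) : hom i u (i.succAbove k) = u k := by simp [hom]

lemma hom_ne (i : Fin 3) (u : E2) : hom i u ≠ 0 := by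
  intro h
  have := congrFun h i
  rw [hom_self] at this
  exact one_ne_zero this

lemma hom_analytic (i j : Fin 3) : ContDiff ℂ ω (fun u : E2 => hom i u j) := by
  rcases Fin.eq_self_or_eq_succAbove i j with rfl | ⟨k, rfl⟩
  · simp only [hom_self]; exact contDiff_const
  · simp only [hom_succ]; exact contDiff_apply ℂ ℂ k

/-- inverse chart -/
def ic (i : Fin 3) (u : E2) : P2 := pr ⟨hom i u, hom_ne i u⟩

lemma ic_cont (i : Fin 3) : Continuous (ic i) := by
  refine pr_cont.comp (Continuous.subtype_mk (continuous_pi fun j => ?_) _)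
  exact (hom_analytic i j).continuous

lemma ic_mem (i : Fin 3) (u : E2) : ic i u ∈ U i := by
  rw [ic, mem_U]
  simp [hom_self]

lemma co_ic (i : Fin 3) (u : E2) : co i (ic i u) = u := by
  funext k
  rw [ic, co_pr]
  simp [hom_self, hom_succ]

lemma ic_co {i : Fin 3} {x : P2} (hx : x ∈ U i) : ic i (co i x) = x := by
  obtain ⟨v, rfl⟩ := pr_surj x
  have hv := mem_U.1 hx
  refine pr_eq_iff.2 ⟨v.1 i, hv, fun j => ?_⟩
  rcases Fin.eq_self_or_eq_succAbove i j with rfl | ⟨k, rfl⟩
  · simp [hom_self]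
  · simp only [hom_succ, co_pr]
    field_simp

lemma co_cont (i : Fin 3) : ContinuousOn (co i) (U i) := by
  rw [continuousOn_open_iff (U_open i)]
  intro T hT
  have h1 : IsOpen (pr ⁻¹' (U i ∩ co i ⁻¹' T)) := by
    have : pr ⁻¹' (U i ∩ co i ⁻¹' T) =
        {v : V3 | v.1 i ≠ 0} ∩ (fun v : V3 => (fun k => v.1 (i.succAbove k) / v.1 i : E2)) ⁻¹' T := by
      ext v
      simp only [mem_preimage, mem_inter_iff, mem_U, mem_ofPred_eq]
      rfl
    rw [this]
    refine ContinuousOn.isOpen_inter_preimage ?_ (isOpen_ne_fun (ap_cont i) continuous_const) hT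
    refine continuousOn_pi.2 fun k => ContinuousOn.div (ap_cont _).continuousOn (ap_cont i).continuousOn ?_
    intro v hv
    exact hv
  exact h1

/-- the `i`-th affine chart -/
noncomputable def ch (i : Fin 3) : OpenPartialHomeomorph P2 E2 where
  toFun := co i
  invFun := ic i
  source := U i
  target := univ
  map_source' := fun _ _ => mem_univ _
  map_target' := fun u _ => ic_mem i u
  left_inv' := fun _ hx => ic_co hx
  right_inv' := fun u _ => co_ic i u
  open_source := U_open i
  open_target := isOpen_univ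
  continuousOn_toFun := co_cont i
  continuousOn_invFun := (ic_cont i).continuousOn

/-- the atlas -/
noncomputable instance : ChartedSpace E2 P2 where
  atlas := range ch
  chartAt x := ch (U_cover x).choose
  mem_chart_source x := (U_cover x).choose_spec
  chart_mem_atlas _ := mem_range_self _

lemma trans_smooth (i j : Fin 3) :
    ContDiffOn ℂ ω ((ch i).symm.trans (ch j)) ((ch i).symm.trans (ch j)).source := by
  have hsub : ((ch i).symm.trans (ch j)).source ⊆ {u : E2 | hom i u j ≠ 0} := by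
    intro u hu
    have h2 : ic i u ∈ U j := by simpa [ch] using hu
    exact mem_U.1 h2
  refine ContDiffOn.mono (s := {u : E2 | hom i u j ≠ 0}) ?_ hsub
  rw [contDiffOn_pi]
  intro k
  change ContDiffOn ℂ ω (fun u => hom i u (j.succAbove k) / hom i u j) _
  exact (hom_analytic i _).contDiffOn.div (hom_analytic i _).contDiffOn fun u hu => hu

instance : IsManifold 𝓘(ℂ, E2) ω P2 := by
  refine isManifold_of_contDiffOn _ _ _ ?_
  rintro e e' ⟨i, rfl⟩ ⟨j, rfl⟩
  simpa using trans_smooth i j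

instance : IsManifold 𝓘(ℝ, E2) ω P2 := by
  refine isManifold_of_contDiffOn _ _ _ ?_
  rintro e e' ⟨i, rfl⟩ ⟨j, rfl⟩
  have := (trans_smooth i j).restrict_scalars ℝ
  simpa using this

end Pool.Agent.Y260.PP
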