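import Mathlib

set_option autoImplicit false

open Set Topology Filter
open scoped Manifold ContDiff

namespace Pool.Agent.Y260.PP

/-- The complex manifold `X` is Kähler: it is covered by open sets `V j` carrying smooth strictly
plurisubharmonic functions `ρ j` with pluriharmonic differences, so that the forms `dd^c (ρ j)` glue
to a Kähler form. Strict plurisubharmonicity and pluriharmonicity are expressed by the Laplacian
along germs `f` of holomorphic discs. -/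
def IsKahler (E : Type) [NormedAddCommGroup E] [NormedSpace ℂ E] (X : Type) [TopologicalSpace X]
    [ChartedSpace E X] : Prop :=
  ∃ (J : Type) (V : J → Set X) (ρ : J → X → ℝ),
    (∀ j, IsOpen (V j)) ∧ (∀ x, ∃ j, x ∈ V j) ∧
    (∀ j, ContMDiffOn 𝓘(ℝ, E) 𝓘(ℝ, ℝ) ∞ (ρ j) (V j)) ∧
    (∀ f : ℂ → X, ContMDiffAt 𝓘(ℂ, ℂ) 𝓘(ℂ, E) ω f 0 →
      (∀ j, f 0 ∈ V j → mfderiv 𝓘(ℂ, ℂ) 𝓘(ℂ, E) f 0 ≠ 0 →
        0 < Laplacian.laplacian (fun ζ : ℂ => ρ j (f ζ)) 0) ∧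
      (∀ j k, f 0 ∈ V j → f 0 ∈ V k →
        Laplacian.laplacian (fun ζ : ℂ => ρ j (f ζ) - ρ k (f ζ)) 0 = 0))

/-- `d` is a distance on `X` which induces the topology of `X`. -/
structure IsDistance (X : Type) [TopologicalSpace X] (d : X → X → ℝ) : Prop where
  eq_zero_iff : ∀ x y, d x y = 0 ↔ x = y
  comm : ∀ x y, d x y = d y x
  triangle : ∀ x y z, d x z ≤ d x y + d y z
  mem_nhds_iff : ∀ (x : X) (s : Set X), s ∈ 𝓝 x ↔ ∃ ε > 0, ∀ y, d x y < ε → y ∈ s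

/-- The family of maps `F k` is equicontinuous on `S` for the distance `d`. -/
def IsEquicontinuousOn {X E ι : Type} [NormedAddCommGroup E] (d : X → X → ℝ) (F : ι → E → X)
    (S : Set E) : Prop :=
  ∀ p ∈ S, ∀ ε > 0, ∃ δ > 0, ∀ k, ∀ z ∈ S, ‖z - p‖ < δ → d (F k z) (F k p) < ε

/-- The Hartogs figure `H_n^1(r)` in `ℂ^n × ℂ`; the last coordinate is the distinguished one. -/
def hartogsFigure (n : ℕ) (r : ℝ) : Set (Fin (n + 1) → ℂ) :=
  {z | (∀ i : Fin n, ‖z i.castSucc‖ < 1 - r) ∧ ‖z (Fin.last n)‖ < 1} ∪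
  {z | (∀ i : Fin n, ‖z i.castSucc‖ < 1) ∧ r < ‖z (Fin.last n)‖ ∧ ‖z (Fin.last n)‖ < 1}

/-- The unit polydisc in `ℂ^(n+1)`. -/
def polydisc (n : ℕ) : Set (Fin (n + 1) → ℂ) := {z | ∀ i, ‖z i‖ < 1}

end Pool.Agent.Y260.PP
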