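import Pool.Agent.Y260.PPA
import Pool.Agent.Y260.PPDefs

set_option autoImplicit false

open Set Topology Filter
open scoped Manifold ContDiff

namespace Pool.Agent.Y260.PP

lemma ch_mem (i : Fin 3) : ch i ∈ IsManifold.maximalAtlas 𝓘(ℂ, E2) ω P2 :=
  IsManifold.subset_maximalAtlas (mem_range_self i)

lemma ch_mem_real (i : Fin 3) : ch i ∈ IsManifold.maximalAtlas 𝓘(ℝ, E2) ω P2 :=
  IsManifold.subset_maximalAtlas (mem_range_self i)

lemma ic_smooth (i : Fin 3) : ContMDiff 𝓘(ℂ, E2) 𝓘(ℂ, E2) ω (ic i) := by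
  have h := contMDiffOn_symm_of_mem_maximalAtlas (ch_mem i)
  have h2 : (ch i).target = univ := rfl
  rw [h2] at h
  exact contMDiffOn_univ.1 h

lemma co_smooth (i : Fin 3) : ContMDiffOn 𝓘(ℂ, E2) 𝓘(ℂ, E2) ω (co i) (U i) :=
  contMDiffOn_of_mem_maximalAtlas (ch_mem i)

lemma co_smooth_real (i : Fin 3) : ContMDiffOn 𝓘(ℝ, E2) 𝓘(ℝ, E2) ω (co i) (U i) :=
  contMDiffOn_of_mem_maximalAtlas (ch_mem_real i)

/-- maps given by holomorphic homogeneous coordinates are holomorphic -/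
lemma holo {E : Type} [NormedAddCommGroup E] [NormedSpace ℂ E] (A : E → Fin 3 → ℂ)
    (hA : ContDiff ℂ ω A) (h0 : ∀ z, A z ≠ 0) :
    ContMDiff 𝓘(ℂ, E) 𝓘(ℂ, E2) ω (fun z => pr ⟨A z, h0 z⟩) := by
  intro z
  obtain ⟨i, hi⟩ : ∃ i, A z i ≠ 0 := by
    by_contra hn
    push Not at hn
    exact h0 z (funext hn)
  have hA' : ∀ j, ContDiff ℂ ω (fun z => A z j) := fun j => contDiff_pi.1 hA j
  have h1 : ContDiffAt ℂ ω (fun z k => A z (i.succAbove k) / A z i : E → E2) z := by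
    rw [contDiffAt_pi]
    intro k
    exact (hA' _).contDiffAt.div (hA' _).contDiffAt hi
  have h2 : ContMDiffAt 𝓘(ℂ, E) 𝓘(ℂ, E2) ω
      (fun z => ic i (fun k => A z (i.succAbove k) / A z i)) z :=
    (ic_smooth i _).comp z h1.contMDiffAt
  refine h2.congr_of_eventuallyEq ?_
  have h3 : ∀ᶠ y in 𝓝 z, A y i ≠ 0 := (hA' i).continuous.continuousAt.eventually_ne hi
  filter_upwards [h3] with y hy
  have h4 : pr ⟨A y, h0 y⟩ ∈ U i := mem_U.2 hy
  rw [← ic_co h4]
  rfl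

/-- the projection extended by a junk value -/
noncomputable def prj (v : Fin 3 → ℂ) : P2 :=
  open Classical in if h : v ≠ 0 then pr ⟨v, h⟩ else pr ⟨1, one_ne_zero⟩

lemma prj_eq {v : Fin 3 → ℂ} (h : v ≠ 0) : prj v = pr ⟨v, h⟩ := by
  unfold prj
  rw [dif_pos h]

lemma prj_cont {v : Fin 3 → ℂ} (h : v ≠ 0) : ContinuousAt prj v := by
  have h1 : ContinuousOn prj {v | v ≠ 0} := by
    rw [continuousOn_iff_continuous_domRestrict]
    have : domRestrict {v | v ≠ 0} prj = pr := by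
      funext w
      exact prj_eq w.2
    rw [this]
    exact pr_cont
  exact h1.continuousAt (isOpen_ne.mem_nhds h)

lemma equi {E : Type} [NormedAddCommGroup E] [NormedSpace ℂ E] {d : P2 → P2 → ℝ}
    (hd : IsDistance P2 d) (A : E × ℝ → Fin 3 → ℂ) (hA : Continuous A) (S : Set E)
    (hS : ∀ z ∈ S, ∀ t ∈ Icc (0 : ℝ) 1, A (z, t) ≠ 0) (τ : ℕ → ℝ) (hτ : ∀ k, τ k ∈ Icc (0 : ℝ) 1) :
    IsEquicontinuousOn d (fun k z => prj (A (z, τ k))) S := by
  intro p hp ε hε
  have h1 : ∀ᶠ z in 𝓝 p, ∀ t ∈ Icc (0 : ℝ) 1, d (prj (A (z, t))) (prj (A (p, t))) < ε := by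
    refine IsCompact.eventually_forall_of_forall_eventually isCompact_Icc ?_
    intro t ht
    have h2 : ContinuousAt (fun q : E × ℝ => prj (A q)) (p, t) :=
      ContinuousAt.comp (prj_cont (hS p hp t ht)) hA.continuousAt
    have h3 : {y | d (prj (A (p, t))) y < ε / 2} ∈ 𝓝 (prj (A (p, t))) :=
      (hd.mem_nhds_iff _ _).2 ⟨ε / 2, by positivity, fun y hy => hy⟩
    have h4 := h2 h3
    have h5 : Tendsto (fun q : E × ℝ => (p, q.2)) (𝓝 (p, t)) (𝓝 (p, t)) := by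
      have : Continuous (fun q : E × ℝ => (p, q.2)) := by fun_prop
      exact this.tendsto (p, t)
    have h6 := (h2.tendsto.comp h5) h3
    filter_upwards [h4, h6] with q hq1 hq2
    have a1 : d (prj (A (p, t))) (prj (A q)) < ε / 2 := hq1
    have a2 : d (prj (A (p, t))) (prj (A (p, q.2))) < ε / 2 := hq2
    have a3 := hd.triangle (prj (A q)) (prj (A (p, t))) (prj (A (p, q.2)))
    rw [hd.comm (prj (A q)) (prj (A (p, t)))] at a3
    change d (prj (A q)) (prj (A (p, q.2))) < ε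
    linarith
  obtain ⟨δ, hδ, h⟩ := Metric.eventually_nhds_iff.1 h1
  refine ⟨δ, hδ, fun k z _ hz => h (by rwa [dist_eq_norm]) _ (hτ k)⟩

section hartogs

variable (n : ℕ)

/-- the homogeneous coordinates of the maps -/
noncomputable def AA (ξ : ℝ) (q : (Fin (n + 1) → ℂ) × ℝ) : Fin 3 → ℂ :=
  ![q.1 0 - ξ, q.1 (Fin.last n), q.2]

lemma AA_cont (ξ : ℝ) : Continuous (AA n ξ) := by
  unfold AA
  refine continuous_pi fun i => ?_
  fin_cases i
  · simp; fun_prop
  · simp; fun_prop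
  · simp; fun_prop

variable {n}

lemma AA_ne (hn : 1 ≤ n) {r ξ : ℝ} (hr0 : 0 < r) (hξ : 1 - r ≤ ξ) :
    ∀ z ∈ hartogsFigure n r, ∀ t ∈ Icc (0 : ℝ) 1, AA n ξ (z, t) ≠ 0 := by
  intro z hz t _ h
  have h0 : z 0 - (ξ : ℂ) = 0 := congrFun h 0
  have h1 : z (Fin.last n) = 0 := congrFun h 1
  rcases hz with ⟨ha, _⟩ | ⟨_, hb, _⟩
  · have h2 := ha ⟨0, hn⟩
    have h3 : (⟨0, hn⟩ : Fin n).castSucc = (0 : Fin (n + 1)) := rfl
    rw [h3, sub_eq_zero.1 h0, Complex.norm_real, Real.norm_eq_abs] at h2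
    have := le_abs_self ξ
    linarith
  · rw [h1, norm_zero] at hb
    linarith

lemma not_equi (hn : 1 ≤ n) {ξ : ℝ} (hξ0 : 0 < ξ) (hξ1 : ξ < 1) {d : P2 → P2 → ℝ}
    (hd : IsDistance P2 d) {τ : ℕ → ℝ} (hτ0 : ∀ k, 0 < τ k) (hτ : Tendsto τ atTop (𝓝 0)) :
    ¬ IsEquicontinuousOn d (fun k z => prj (AA n ξ (z, τ k))) (polydisc n) := by
  intro h
  have hd0 : ∀ x y, 0 ≤ d x y := by
    intro x y
    have h1 := hd.triangle x y x
    rw [(hd.eq_zero_iff x x).2 rfl, hd.comm y x] at h1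
    linarith
  have hlast : Fin.last n ≠ 0 := by
    intro h
    have : n = 0 := by simpa using congrArg Fin.val h
    omega
  -- the two points
  have ne1 : (![1, 0, 0] : Fin 3 → ℂ) ≠ 0 := fun h => one_ne_zero (congrFun h 0)
  have ne2 : (![0, 0, 1] : Fin 3 → ℂ) ≠ 0 := fun h => one_ne_zero (congrFun h 2)
  set D : ℝ := d (prj ![1, 0, 0]) (prj ![0, 0, 1]) with hD
  have hDpos : 0 < D := by
    rcases (hd0 (prj ![1, 0, 0]) (prj ![0, 0, 1])).lt_or_eq with h1 | h1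
    · exact h1
    · exfalso
      have h2 := (hd.eq_zero_iff _ _).1 h1.symm
      rw [prj_eq ne1, prj_eq ne2, pr_eq_iff'] at h2
      have h3 := h2 0 2
      simp at h3
  let p : Fin (n + 1) → ℂ := Function.update 0 0 (ξ : ℂ)
  have hp0 : p 0 = ξ := by simp [p]
  have hpl : p (Fin.last n) = 0 := by simp [p, hlast]
  have hp : p ∈ polydisc n := by
    intro i
    rcases eq_or_ne i 0 with rfl | hi
    · rw [hp0, Complex.norm_real, Real.norm_eq_abs, abs_of_pos hξ0]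
      exact hξ1
    · simp [p, hi]
  obtain ⟨δ, hδ, hF⟩ := h p hp (D / 2) (by positivity)
  -- a point near `p`
  set s : ℝ := min (δ / 2) ((1 - ξ) / 2) with hs
  have hs0 : 0 < s := lt_min (by linarith) (by linarith)
  let z : Fin (n + 1) → ℂ := Function.update 0 0 ((ξ + s : ℝ) : ℂ)
  have hz0 : z 0 = ((ξ + s : ℝ) : ℂ) := by simp [z]
  have hzl : z (Fin.last n) = 0 := by simp [z, hlast]
  have hz : z ∈ polydisc n := by
    intro i
    rcases eq_or_ne i 0 with rfl | hi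
    · rw [hz0, Complex.norm_real, Real.norm_eq_abs, abs_of_pos (by linarith)]
      have : s ≤ (1 - ξ) / 2 := min_le_right _ _
      linarith
    · simp [z, hi]
  have hzp : ‖z - p‖ < δ := by
    rw [pi_norm_lt_iff hδ]
    intro i
    rcases eq_or_ne i 0 with rfl | hi
    · rw [Pi.sub_apply, hz0, hp0]
      have : ((ξ + s : ℝ) : ℂ) - ξ = (s : ℂ) := by push_cast; ring
      rw [this, Complex.norm_real, Real.norm_eq_abs, abs_of_pos hs0]
      have : s ≤ δ / 2 := min_le_left _ _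
      linarith
    · simp [z, p, hi]
      exact hδ
  have hFp : ∀ k, prj (AA n ξ (p, τ k)) = prj ![0, 0, 1] := by
    intro k
    have h1 : AA n ξ (p, τ k) = ![0, 0, (τ k : ℂ)] := by
      simp [AA, hp0, hpl]
    have h2 : (![0, 0, (τ k : ℂ)] : Fin 3 → ℂ) ≠ 0 := by
      intro h
      have : (τ k : ℂ) = 0 := congrFun h 2
      exact (hτ0 k).ne' (by exact_mod_cast this)
    rw [h1, prj_eq h2, prj_eq ne2, pr_eq_iff']
    intro i j
    fin_cases i <;> fin_cases j <;> simp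
  have hlim : Tendsto (fun k => prj (AA n ξ (z, τ k))) atTop (𝓝 (prj ![1, 0, 0])) := by
    have h1 : AA n ξ (z, 0) = ![(s : ℂ), 0, 0] := by
      simp [AA, hz0, hzl]
    have h2 : (![(s : ℂ), 0, 0] : Fin 3 → ℂ) ≠ 0 := by
      intro h
      have : (s : ℂ) = 0 := congrFun h 0
      exact hs0.ne' (by exact_mod_cast this)
    have h3 : prj ![(s : ℂ), 0, 0] = prj ![1, 0, 0] := by
      rw [prj_eq h2, prj_eq ne1, pr_eq_iff']
      intro i j
      fin_cases i <;> fin_cases j <;> simp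
    rw [← h3]
    have h4 : Tendsto (fun k => AA n ξ (z, τ k)) atTop (𝓝 (AA n ξ (z, 0))) := by
      have h5 : Continuous (fun t : ℝ => AA n ξ (z, t)) := (AA_cont n ξ).comp (by fun_prop)
      exact (h5.tendsto 0).comp hτ
    rw [h1] at h4
    exact (prj_cont h2).tendsto.comp h4
  have h6 : {y | d (prj ![1, 0, 0]) y < D / 2} ∈ 𝓝 (prj ![1, 0, 0]) :=
    (hd.mem_nhds_iff _ _).2 ⟨D / 2, by positivity, fun y hy => hy⟩
  obtain ⟨k, hk⟩ := (hlim.eventually_mem h6).exists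
  have hk' : d (prj ![1, 0, 0]) (prj (AA n ξ (z, τ k))) < D / 2 := hk
  have h7 := hF k z hz hzp
  simp only [hFp] at h7
  have h8 := hd.triangle (prj ![1, 0, 0]) (prj (AA n ξ (z, τ k))) (prj ![0, 0, 1])
  linarith

end hartogs

lemma exists_distance : ∃ d : P2 → P2 → ℝ, IsDistance P2 d := by
  have : SecondCountableTopology P2 := ChartedSpace.secondCountable_of_sigmaCompact E2 P2
  have : TopologicalSpace.MetrizableSpace P2 :=
    TopologicalSpace.metrizableSpace_of_t3_secondCountable P2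
  let _ := TopologicalSpace.metrizableSpaceMetric P2
  refine ⟨dist, fun x y => dist_eq_zero, dist_comm, dist_triangle, fun x s => ?_⟩
  rw [Metric.mem_nhds_iff]
  constructor
  · rintro ⟨ε, hε, h⟩
    exact ⟨ε, hε, fun y hy => h (by rwa [Metric.mem_ball, dist_comm])⟩
  · rintro ⟨ε, hε, h⟩
    exact ⟨ε, hε, fun y hy => h y (by rwa [Metric.mem_ball, dist_comm] at hy)⟩


end Pool.Agent.Y260.PP
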