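import Pool.Agent.Y260.PPB

set_option autoImplicit false

open Set Topology Filter
open scoped Manifold ContDiff InnerProductSpace

namespace Pool.Agent.Y260.PP

lemma ana_of_omega {F : Type} [NormedAddCommGroup F] [NormedSpace ℂ F] [CompleteSpace F]
    {g : ℂ → F} {z : ℂ} (h : ContDiffAt ℂ ω g z) : AnalyticAt ℂ g z := by
  rw [← contDiffWithinAt_univ, contDiffWithinAt_omega_iff_analyticWithinAt,
    analyticWithinAt_univ] at h
  exact h

lemma lap_line {L : ℂ → ℝ} (hL : ContDiffAt ℝ 2 L 0) (e : ℂ) {ψ : ℝ → ℝ} {c : ℝ}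
    (h1 : ∀ᶠ t in 𝓝 (0 : ℝ), HasDerivAt (fun s : ℝ => L (s • e)) (ψ t) t)
    (h2 : HasDerivAt ψ c 0) : iteratedFDeriv ℝ 2 L 0 ![e, e] = c := by
  rw [iteratedFDeriv_two_apply]
  simp only [Matrix.cons_val_zero, Matrix.cons_val_one]
  have hdiff : ∀ᶠ ζ in 𝓝 (0 : ℂ), DifferentiableAt ℝ L ζ := by
    have h := hL.eventually (by simp)
    filter_upwards [h] with ζ hζ
    exact hζ.differentiableAt (by norm_num)
  have hf : DifferentiableAt ℝ (fderiv ℝ L) 0 := by
    have : ContDiffAt ℝ 1 (fderiv ℝ L) 0 := hL.fderiv_right (by norm_num)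
    exact this.differentiableAt (by norm_num)
  have hline : ∀ t : ℝ, HasDerivAt (fun s : ℝ => s • e) e t := by
    intro t
    simpa using (hasDerivAt_id t).smul_const e
  have ht0 : Tendsto (fun s : ℝ => s • e) (𝓝 0) (𝓝 (0 : ℂ)) := by
    have := (hline 0).continuousAt.tendsto
    simpa using this
  have h3 : ψ =ᶠ[𝓝 0] fun t => fderiv ℝ L (t • e) e := by
    filter_upwards [h1, ht0.eventually hdiff] with t ht htd
    have h4 : HasDerivAt (fun s : ℝ => L (s • e)) (fderiv ℝ L (t • e) e) t :=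
      htd.hasFDerivAt.comp_hasDerivAt t (hline t)
    exact ht.unique h4
  have h5 : HasDerivAt (fun t : ℝ => fderiv ℝ L (t • e) e) (fderiv ℝ (fderiv ℝ L) 0 e e) 0 := by
    have h6 : HasFDerivAt (fderiv ℝ L) (fderiv ℝ (fderiv ℝ L) 0) ((0 : ℝ) • e) := by
      rw [zero_smul]; exact hf.hasFDerivAt
    have h7 : HasDerivAt (fun t : ℝ => fderiv ℝ L (t • e)) (fderiv ℝ (fderiv ℝ L) 0 e) 0 :=
      h6.comp_hasDerivAt (0 : ℝ) (hline 0)
    have h8 := (ContinuousLinearMap.apply ℝ ℝ e).hasFDerivAt.comp_hasDerivAt (0 : ℝ) h7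
    exact h8
  exact ((h2.congr_of_eventuallyEq h3.symm).unique h5).symm

/-- the Laplacian of `log (1 + ‖g‖²)` -/
lemma lap_pos {g : Fin 2 → ℂ → ℂ} (hg : ∀ k, AnalyticAt ℂ (g k) 0)
    (hne : ∃ k, deriv (g k) 0 ≠ 0) :
    0 < Laplacian.laplacian (fun ζ : ℂ => Real.log (1 + ∑ k, ‖g k ζ‖ ^ 2)) 0 := by
  set L : ℂ → ℝ := fun ζ : ℂ => Real.log (1 + ∑ k, ‖g k ζ‖ ^ 2) with hLdef
  have hpos : ∀ ζ, 0 < 1 + ∑ k, ‖g k ζ‖ ^ 2 := fun ζ => by positivity
  have hL : ContDiffAt ℝ 2 L 0 := by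
    refine ContDiffAt.log ?_ (hpos 0).ne'
    refine contDiffAt_const.add (ContDiffAt.sum fun k _ => ?_)
    have h1 : ContDiffAt ℝ 2 (g k) 0 := ((hg k).contDiffAt (n := 2)).restrict_scalars ℝ
    exact h1.norm_sq ℝ
  have hev : ∀ e : ℂ, ∀ᶠ t in 𝓝 (0 : ℝ), ∀ k, AnalyticAt ℂ (g k) (t • e) := by
    intro e
    have ht0 : Tendsto (fun s : ℝ => s • e) (𝓝 0) (𝓝 (0 : ℂ)) := by
      have : Continuous (fun s : ℝ => s • e) := by fun_prop
      simpa using this.tendsto 0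
    exact ht0.eventually (eventually_all.2 fun k => (hg k).eventually_analyticAt)
  -- derivatives along a line
  have key : ∀ e : ℂ, iteratedFDeriv ℝ 2 L 0 ![e, e] =
      ((∑ k, 2 * (⟪g k 0, e * (e * deriv (deriv (g k)) 0)⟫_ℝ +
          ⟪e * deriv (g k) 0, e * deriv (g k) 0⟫_ℝ)) * (1 + ∑ k, ‖g k 0‖ ^ 2) -
        (∑ k, 2 * ⟪g k 0, e * deriv (g k) 0⟫_ℝ) * (∑ k, 2 * ⟪g k 0, e * deriv (g k) 0⟫_ℝ)) /
        (1 + ∑ k, ‖g k 0‖ ^ 2) ^ 2 := by
    intro e
    have hline : ∀ t : ℝ, HasDerivAt (fun s : ℝ => s • e) e t := by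
      intro t
      simpa using (hasDerivAt_id t).smul_const e
    have hG : ∀ k, ∀ᶠ t in 𝓝 (0 : ℝ), HasDerivAt (fun s : ℝ => g k (s • e))
        (e * deriv (g k) (t • e)) t := by
      intro k
      filter_upwards [hev e] with t ht
      have h1 := (ht k).differentiableAt.hasDerivAt.scomp t (hline t)
      simpa [smul_eq_mul, Function.comp_def] using h1
    have hG' : ∀ k, HasDerivAt (fun s : ℝ => e * deriv (g k) (s • e))
        (e * (e * deriv (deriv (g k)) 0)) 0 := by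
      intro k
      have h0 : AnalyticAt ℂ (deriv (g k)) ((0 : ℝ) • e) := by
        rw [zero_smul]; exact (hg k).deriv
      have h1 := h0.differentiableAt.hasDerivAt.scomp (0 : ℝ) (hline 0)
      have h2 : HasDerivAt (fun s : ℝ => deriv (g k) (s • e)) (e * deriv (deriv (g k)) 0) 0 := by
        simpa [smul_eq_mul, Function.comp_def] using h1
      exact h2.const_mul e
    have hN : ∀ᶠ t in 𝓝 (0 : ℝ), HasDerivAt (fun s : ℝ => 1 + ∑ k, ‖g k (s • e)‖ ^ 2)
        (∑ k, 2 * ⟪g k (t • e), e * deriv (g k) (t • e)⟫_ℝ) t := by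
      have h := eventually_all.2 hG
      filter_upwards [h] with t ht
      refine HasDerivAt.const_add 1 ?_
      exact HasDerivAt.fun_sum fun k _ => (ht k).norm_sq
    refine lap_line (ψ := fun t => (∑ k, 2 * ⟪g k (t • e), e * deriv (g k) (t • e)⟫_ℝ) /
        (1 + ∑ k, ‖g k (t • e)‖ ^ 2)) hL e ?_ ?_
    · filter_upwards [hN] with t ht
      exact ht.log (hpos _).ne'
    · have h0 : ∀ k, HasDerivAt (fun s : ℝ => g k (s • e)) (e * deriv (g k) 0) 0 := by
        intro k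
        have := (hG k).self_of_nhds
        simpa using this
      have h1 : HasDerivAt (fun t : ℝ => ∑ k, 2 * ⟪g k (t • e), e * deriv (g k) (t • e)⟫_ℝ)
          (∑ k, 2 * (⟪g k 0, e * (e * deriv (deriv (g k)) 0)⟫_ℝ +
          ⟪e * deriv (g k) 0, e * deriv (g k) 0⟫_ℝ)) 0 := by
        refine HasDerivAt.fun_sum fun k _ => ?_
        refine HasDerivAt.const_mul 2 ?_
        have h2 := (h0 k).inner ℝ (hG' k)
        simpa using h2
      have h2 : HasDerivAt (fun s : ℝ => 1 + ∑ k, ‖g k (s • e)‖ ^ 2)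
        (∑ k, 2 * ⟪g k 0, e * deriv (g k) 0⟫_ℝ) 0 := by
        have := hN.self_of_nhds
        simpa using this
      have h3 := h1.div h2 (hpos _).ne'
      simp only [zero_smul] at h3
      exact h3
  rw [InnerProductSpace.laplacian_eq_iteratedFDeriv_complexPlane]
  simp only
  rw [key 1, key Complex.I, ← add_div]
  refine div_pos ?_ (by have := hpos 0; positivity)
  simp only [Fin.sum_univ_two, Complex.inner, Complex.sq_norm, Complex.normSq_apply]
  set a0 := g 0 0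
  set a1 := g 1 0
  set b0 := deriv (g 0) 0 with hb0
  set b1 := deriv (g 1) 0 with hb1
  set c0 := deriv (deriv (g 0)) 0
  set c1 := deriv (deriv (g 1)) 0
  simp only [one_mul, map_mul, Complex.conj_I, Complex.mul_re, Complex.mul_im, Complex.conj_re,
    Complex.conj_im, Complex.I_re, Complex.I_im, Complex.neg_re, Complex.neg_im]
  have hb : 0 < b0.re ^ 2 + b0.im ^ 2 + b1.re ^ 2 + b1.im ^ 2 := by
    obtain ⟨k, hk⟩ := hne
    have h1 : b0 ≠ 0 ∨ b1 ≠ 0 := by
      fin_cases k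
      · exact Or.inl hk
      · exact Or.inr hk
    rcases h1 with h | h
    · have := Complex.normSq_pos.2 h
      rw [Complex.normSq_apply] at this
      nlinarith [sq_nonneg b1.re, sq_nonneg b1.im]
    · have := Complex.normSq_pos.2 h
      rw [Complex.normSq_apply] at this
      nlinarith [sq_nonneg b0.re, sq_nonneg b0.im]
  have hident : 4 * (b0.re ^ 2 + b0.im ^ 2 + b1.re ^ 2 + b1.im ^ 2) +
      4 * ((a0.re * b1.re - a0.im * b1.im - a1.re * b0.re + a1.im * b0.im) ^ 2 +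
        (a0.re * b1.im + a0.im * b1.re - a1.re * b0.im - a1.im * b0.re) ^ 2) > 0 := by
    positivity
  refine lt_of_lt_of_eq hident ?_
  ring

/-- the local potentials of the Fubini-Study form -/
noncomputable def pot (j : Fin 3) (x : P2) : ℝ := Real.log (1 + ∑ k, ‖co j x k‖ ^ 2)

lemma pot_smooth (j : Fin 3) : ContMDiffOn 𝓘(ℝ, E2) 𝓘(ℝ, ℝ) ∞ (pot j) (U j) := by
  have h1 : ContDiff ℝ ∞ (fun u : E2 => Real.log (1 + ∑ k, ‖u k‖ ^ 2)) := by
    refine ContDiff.log ?_ fun u => by positivity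
    refine contDiff_const.add (ContDiff.sum fun k _ => ?_)
    exact (contDiff_apply ℝ ℂ k).norm_sq ℝ
  exact h1.contMDiff.comp_contMDiffOn ((co_smooth_real j).of_le (by simp))

/-- the transition function between two potentials -/
lemma pot_sub {j k : Fin 3} {x : P2} (hj : x ∈ U j) (hk : x ∈ U k) :
    pot j x - pot k x = 2 * Real.log ‖hom j (co j x) k‖ := by
  obtain ⟨v, rfl⟩ := pr_surj x
  have hj' := mem_U.1 hj
  have hk' := mem_U.1 hk
  have hS : ∀ i : Fin 3, v.1 i ≠ 0 → 1 + ∑ l, ‖co i (pr v) l‖ ^ 2 =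
      (∑ m, ‖v.1 m‖ ^ 2) / ‖v.1 i‖ ^ 2 := by
    intro i hi
    have hi' : ‖v.1 i‖ ^ 2 ≠ 0 := by simpa using hi
    rw [Fin.sum_univ_succAbove (fun m => ‖v.1 m‖ ^ 2) i, add_div, div_self hi', Finset.sum_div]
    congr 1
    refine Finset.sum_congr rfl fun l _ => ?_
    rw [co_pr, norm_div, div_pow]
  have hh : hom j (co j (pr v)) k = v.1 k / v.1 j := by
    rcases Fin.eq_self_or_eq_succAbove j k with rfl | ⟨l, rfl⟩
    · rw [hom_self, div_self hj']
    · rw [hom_succ, co_pr]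
  have hT : 0 < ∑ m, ‖v.1 m‖ ^ 2 := by
    have : 0 < ‖v.1 j‖ ^ 2 := by have := norm_pos_iff.2 hj'; positivity
    refine lt_of_lt_of_le this (Finset.single_le_sum (f := fun m => ‖v.1 m‖ ^ 2)
      (fun m _ => by positivity) (Finset.mem_univ j))
  have nj := norm_pos_iff.2 hj'
  have nk := norm_pos_iff.2 hk'
  unfold pot
  rw [hS j hj', hS k hk', hh, norm_div, Real.log_div hT.ne' (by positivity),
    Real.log_div hT.ne' (by positivity), Real.log_div nk.ne' nj.ne', Real.log_pow, Real.log_pow]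
  push_cast
  ring

lemma kahler : IsKahler E2 P2 := by
  refine ⟨Fin 3, U, pot, U_open, U_cover, pot_smooth, fun f hf => ?_⟩
  have hco : ∀ j, f 0 ∈ U j → ContMDiffAt 𝓘(ℂ, ℂ) 𝓘(ℂ, E2) ω (fun ζ => co j (f ζ)) 0 := by
    intro j hj
    exact ((co_smooth j).contMDiffAt ((U_open j).mem_nhds hj)).comp 0 hf
  have hana : ∀ j, f 0 ∈ U j → ∀ k, AnalyticAt ℂ (fun ζ => co j (f ζ) k) 0 := by
    intro j hj k
    have h1 := (hco j hj).contDiffAt
    have h2 : ContDiffAt ℂ ω (fun ζ => co j (f ζ) k) 0 := contDiffAt_pi.1 h1 k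
    exact ana_of_omega h2
  constructor
  · intro j hj hne
    refine lap_pos (g := fun k ζ => co j (f ζ) k) (hana j hj) ?_
    by_contra hcon
    push Not at hcon
    refine hne ?_
    have h1 : mfderiv 𝓘(ℂ, ℂ) 𝓘(ℂ, E2) (fun ζ => co j (f ζ)) 0 = 0 := by
      rw [mfderiv_eq_fderiv]
      have h2 : HasDerivAt (fun ζ => co j (f ζ)) (fun k => deriv (fun ζ => co j (f ζ) k) 0) 0 :=
        hasDerivAt_pi.2 fun k => (hana j hj k).differentiableAt.hasDerivAt
      have h3 : (fun k => deriv (fun ζ => co j (f ζ) k) 0) = (0 : E2) := funext hcon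
      rw [h3] at h2
      have h4 := h2.hasFDerivAt.fderiv
      rw [h4]
      ext
      simp
      rfl
    have h5 : f =ᶠ[𝓝 0] fun ζ => ic j (co j (f ζ)) := by
      have h6 : ∀ᶠ ζ in 𝓝 (0 : ℂ), f ζ ∈ U j :=
        hf.continuousAt.eventually_mem ((U_open j).mem_nhds hj)
      filter_upwards [h6] with ζ hζ
      exact (ic_co hζ).symm
    rw [h5.mfderiv_eq]
    have h7 : mfderiv 𝓘(ℂ, ℂ) 𝓘(ℂ, E2) (fun ζ => ic j (co j (f ζ))) 0 =
        (mfderiv 𝓘(ℂ, E2) 𝓘(ℂ, E2) (ic j) (co j (f 0))).comp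
          (mfderiv 𝓘(ℂ, ℂ) 𝓘(ℂ, E2) (fun ζ => co j (f ζ)) 0) :=
      mfderiv_comp (g := ic j) (f := fun ζ => co j (f ζ)) (I' := 𝓘(ℂ, E2)) 0
        ((ic_smooth j).mdifferentiable (by simp) _) ((hco j hj).mdifferentiableAt (by simp))
    rw [h7, h1, ContinuousLinearMap.comp_zero]
    rfl
  · intro j k hj hk
    have h1 : AnalyticAt ℂ (fun ζ => hom j (co j (f ζ)) k) 0 := by
      have h2 : ContDiffAt ℂ ω (fun ζ => hom j (co j (f ζ)) k) 0 :=
        ((hom_analytic j k).contDiffAt).comp 0 (hco j hj).contDiffAt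
      exact ana_of_omega h2
    have hne : hom j (co j (f 0)) k ≠ 0 := by
      have h3 : f 0 ∈ U k := hk
      rw [← ic_co hj] at h3
      exact mem_U.1 h3
    have h4 := (h1.harmonicAt_log_norm hne).const_smul (c := (2 : ℝ))
    have h5 : (fun ζ => pot j (f ζ) - pot k (f ζ)) =ᶠ[𝓝 0]
        ((2 : ℝ) • fun ζ => Real.log ‖hom j (co j (f ζ)) k‖) := by
      have h6 : ∀ᶠ ζ in 𝓝 (0 : ℂ), f ζ ∈ U j :=
        hf.continuousAt.eventually_mem ((U_open j).mem_nhds hj)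
      have h7 : ∀ᶠ ζ in 𝓝 (0 : ℂ), f ζ ∈ U k :=
        hf.continuousAt.eventually_mem ((U_open k).mem_nhds hk)
      filter_upwards [h6, h7] with ζ hζ1 hζ2
      simp only [Pi.smul_apply, smul_eq_mul]
      exact pot_sub hζ1 hζ2
    have h8 := InnerProductSpace.laplacian_congr_nhds h5
    rw [h8.self_of_nhds]
    exact h4.2.self_of_nhds

/-- the counterexample -/
theorem main : ∃ (X : Type) (_ : TopologicalSpace X) (_ : ChartedSpace (Fin 2 → ℂ) X),
    IsManifold 𝓘(ℂ, Fin 2 → ℂ) ω X ∧ CompactSpace X ∧ T2Space X ∧ ConnectedSpace X ∧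
    IsKahler (Fin 2 → ℂ) X ∧ (∃ d : X → X → ℝ, IsDistance X d) ∧
    ∀ n : ℕ, 1 ≤ n → ∀ r : ℝ, 0 < r → r < 1 → ∃ F : ℕ → (Fin (n + 1) → ℂ) → X,
      (∀ k, ContMDiff 𝓘(ℂ, Fin (n + 1) → ℂ) 𝓘(ℂ, Fin 2 → ℂ) ω (F k)) ∧
      ∀ d : X → X → ℝ, IsDistance X d →
        IsEquicontinuousOn d F (hartogsFigure n r) ∧ ¬ IsEquicontinuousOn d F (polydisc n) := by
  refine ⟨P2, inferInstance, inferInstance, inferInstance, inferInstance, inferInstance,
    inferInstance, kahler, exists_distance, fun n hn r hr0 hr1 => ?_⟩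
  set ξ : ℝ := 1 - r / 2 with hξ
  set τ : ℕ → ℝ := fun k => 1 / ((k : ℝ) + 1) with hτ
  have hτ0 : ∀ k, 0 < τ k := fun k => by positivity
  have hτ1 : ∀ k, τ k ∈ Icc (0 : ℝ) 1 := fun k => ⟨(hτ0 k).le, by
    rw [hτ]
    simp only
    rw [div_le_one (by positivity)]
    have : (0 : ℝ) ≤ k := Nat.cast_nonneg k
    linarith⟩
  refine ⟨fun k z => prj (AA n ξ (z, τ k)), fun k => ?_, fun d hd => ⟨?_, ?_⟩⟩
  · have h0 : ∀ z : Fin (n + 1) → ℂ, AA n ξ (z, τ k) ≠ 0 := by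
      intro z h
      have : ((τ k : ℝ) : ℂ) = 0 := congrFun h 2
      exact (hτ0 k).ne' (by exact_mod_cast this)
    have h1 : (fun z => prj (AA n ξ (z, τ k))) = fun z => pr ⟨AA n ξ (z, τ k), h0 z⟩ := by
      funext z
      exact prj_eq (h0 z)
    simp only [h1]
    refine holo (fun z => AA n ξ (z, τ k)) ?_ h0
    rw [contDiff_pi]
    intro i
    fin_cases i
    · change ContDiff ℂ ω (fun z : Fin (n + 1) → ℂ => z 0 - (ξ : ℂ))
      exact (contDiff_apply ℂ ℂ (0 : Fin (n + 1))).sub contDiff_const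
    · change ContDiff ℂ ω (fun z : Fin (n + 1) → ℂ => z (Fin.last n))
      exact contDiff_apply ℂ ℂ (Fin.last n)
    · change ContDiff ℂ ω (fun _ : Fin (n + 1) → ℂ => ((τ k : ℝ) : ℂ))
      exact contDiff_const
  · exact equi hd (AA n ξ) (AA_cont n ξ) _ (AA_ne hn hr0 (by linarith)) τ hτ1
  · refine not_equi hn (by linarith) (by linarith) hd hτ0 ?_
    exact tendsto_one_div_add_atTop_nhds_zero_nat

end Pool.Agent.Y260.PP
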